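import Pool.Agent.H377Z.Cap.Main

set_option autoImplicit false

open MeasureTheory Pool.Agent.H377Z.Cap
open scoped ENNReal NNReal

namespace Pool.Agent.Results.MP_4f6fd6_an.NotComparable

/-- There is a non-extreme `b` of norm one in `H^∞` for which the two capacities of `H(b)` are not
comparable, even on open sets. -/
theorem result : ∃ b : Lp ℂ ∞ mT,
    (∀ n : ℤ, n < 0 → fourierCoeff b n = 0) ∧ ‖b‖ = 1 ∧
    (∀ᵐ x ∂mT, ‖b x‖ < 1) ∧ Integrable (fun x => Real.log (1 - ‖b x‖)) mT ∧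
    ∀ A : ℝ≥0, ∃ E : Set UnitAddCircle, IsOpen E ∧ A * cap1 b E < cap2 b E :=
  ⟨bL, fun n hn => an_bL.int (m := -n) (by omega), norm_bL, bL_lt, int_log, main⟩

end Pool.Agent.Results.MP_4f6fd6_an.NotComparable
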